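import Mathlib
import Pool.Agent.W47.LC.EBound

set_option autoImplicit false

namespace Pool.Agent.Y950.NC

/-- the measure of irrationality of `e` -/
theorem meas_exp {η : ℝ} (hη : 0 < η) : ∃ c : ℝ, 0 < c ∧ ∀ q : ℕ, 1 ≤ q → ∀ p : ℤ,
    c ≤ (q : ℝ) ^ (1 + η) * |q * Real.exp 1 - p| := by
  refine ⟨1 / 1000 / (1 + 1 / η), by positivity, fun q hq p => ?_⟩
  have hqR : (1 : ℝ) ≤ q := by exact_mod_cast hq
  have hq0 : (0 : ℝ) < q := by linarith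
  have h1 := Pool.Agent.W47.LC.eBound q hq p
  rw [pow_one] at h1
  have h2 : Real.log q ≤ (q : ℝ) ^ η / η := Real.log_le_rpow_div hq0.le hη
  have h3 : (1 : ℝ) ≤ (q : ℝ) ^ η := Real.one_le_rpow hqR hη.le
  have h4 : 1 + Real.log q ≤ (1 + 1 / η) * (q : ℝ) ^ η := by
    have h5 : (1 + 1 / η) * (q : ℝ) ^ η = (q : ℝ) ^ η + (q : ℝ) ^ η / η := by ring
    linarith
  have h6 : (q : ℝ) ^ (1 + η) = q * (q : ℝ) ^ η := by
    rw [Real.rpow_add hq0, Real.rpow_one]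
  rw [div_le_iff₀ (by positivity), h6]
  refine h1.trans ?_
  have h7 : 0 ≤ |(q : ℝ) * Real.exp 1 - p| := abs_nonneg _
  calc (q : ℝ) * (1 + Real.log q) * |(q : ℝ) * Real.exp 1 - p| ≤
      (q : ℝ) * ((1 + 1 / η) * (q : ℝ) ^ η) * |(q : ℝ) * Real.exp 1 - p| := by gcongr
    _ = _ := by ring

end Pool.Agent.Y950.NC
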