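import Mathlib
import Pool.Agent.Y949.MP.Mult
import Pool.Agent.Y950.NC.MeasE
import Pool.Agent.W47.LC.Ln2
import Pool.Agent.W472.AC.RothThm

set_option autoImplicit false

open Finset Filter Topology

namespace Pool.Agent.Y950.NC

lemma irr_of_meas {α κ c0 : ℝ} (hc0 : 0 < c0)
    (h : ∀ q : ℕ, 1 ≤ q → ∀ p : ℤ, c0 ≤ (q : ℝ) ^ κ * |q * α - p|) : Irrational α := by
  rintro ⟨r, hr⟩
  have h1 := h r.den r.den_pos r.num
  have e : (r.den : ℝ) * α - r.num = 0 := by
    rw [← hr]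
    have h2 : (r.den : ℚ) * r = r.num := by
      rw [mul_comm]; exact Rat.mul_den_eq_num r
    have h3 : ((r.den : ℚ) : ℝ) * (r : ℝ) = ((r.num : ℚ) : ℝ) := by exact_mod_cast h2
    push_cast at h3
    linarith
  rw [e, abs_zero, mul_zero] at h1
  linarith

open Classical in
/-- the exceptional sets for an exponent `κ = 1 + η` with arbitrarily small `η` -/
theorem mult_two (α : ℝ) (h : ∀ η : ℝ, 0 < η → ∃ c : ℝ, 0 < c ∧ ∀ q : ℕ, 1 ≤ q → ∀ p : ℤ,
      c ≤ (q : ℝ) ^ (1 + η) * |q * α - p|) (b k : ℕ) (hb : 2 ≤ b)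
    (hk : 1 ≤ k) (ε : ℝ) (hε : 0 < ε) (hε1 : ε < 1) :
    ∃ c C : ℝ, 0 < c ∧ 0 < C ∧ ∀ x : ℝ, ∀ M n : ℕ, 2 ≤ M →
      (((range M).filter (fun m : ℕ => ∃ w : Fin k → Fin b,
        (Pool.Agent.W226.MP.occ b k w (x + m * α) 0 n : ℝ) <
        (1 - ε) * (Real.log M / ((b : ℝ) ^ k * Real.log b)) *
          (Real.log (n / (C * Real.log M)) / Real.log 2))).card : ℝ) ≤
        C * (M : ℝ) ^ (1 - c) := by
  have hl2 : 0 < Real.log 2 := Real.log_pos one_lt_two
  set η : ℝ := ε * Real.log 2 with hη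
  have hη0 : 0 < η := by positivity
  obtain ⟨c0, hc0, hm⟩ := h η hη0
  obtain ⟨c, C, hc, hC, hmain⟩ := Pool.Agent.Y949.MP.mult α (1 + η) c0 (irr_of_meas hc0 hm)
    (by linarith) hc0 hm b k hb hk (ε / 2) (by positivity) (by linarith)
  refine ⟨c, C, hc, hC, fun x M n hM => ?_⟩
  refine le_trans (Nat.cast_le.2 (Finset.card_le_card ?_)) (hmain x M n hM)
  intro m hmem
  rw [Finset.mem_filter] at hmem ⊢
  obtain ⟨h1, w, h2⟩ := hmem
  refine ⟨h1, w, h2.trans_le ?_⟩
  have hMR : (2 : ℝ) ≤ M := by exact_mod_cast hM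
  have hlM : 0 < Real.log M := Real.log_pos (by linarith)
  have hbR : (2 : ℝ) ≤ b := by exact_mod_cast hb
  have hlb : 0 < Real.log b := Real.log_pos (by linarith)
  have hocc : (0 : ℝ) < Real.log (n / (C * Real.log M)) := by
    by_contra hcon
    push Not at hcon
    have h3 : (1 - ε) * (Real.log M / ((b : ℝ) ^ k * Real.log b)) *
          (Real.log (n / (C * Real.log M)) / Real.log 2) ≤ 0 := by
      apply mul_nonpos_of_nonneg_of_nonpos
      · have : 0 < 1 - ε := by linarith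
        positivity
      · exact div_nonpos_of_nonpos_of_nonneg hcon hl2.le
    have h4 : (0 : ℝ) ≤ (Pool.Agent.W226.MP.occ b k w (x + m * α) 0 n : ℝ) := Nat.cast_nonneg _
    linarith
  have hlog : Real.log (1 + (1 + η)) ≤ Real.log 2 * (1 + ε / 2) := by
    have e : (1 : ℝ) + (1 + η) = 2 * (1 + η / 2) := by ring
    rw [e, Real.log_mul (by norm_num) (by positivity)]
    have h5 : Real.log (1 + η / 2) ≤ η / 2 := by
      have := Real.log_le_sub_one_of_pos (show 0 < 1 + η / 2 by positivity)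
      linarith
    rw [hη] at h5 ⊢
    nlinarith
  have hlog0 : 0 < Real.log (1 + (1 + η)) := Real.log_pos (by linarith)
  have h6 : (1 - ε) / Real.log 2 ≤ (1 - ε / 2) / Real.log (1 + (1 + η)) := by
    rw [div_le_div_iff₀ hl2 hlog0]
    calc (1 - ε) * Real.log (1 + (1 + η)) ≤ (1 - ε) * (Real.log 2 * (1 + ε / 2)) :=
          mul_le_mul_of_nonneg_left hlog (by linarith)
      _ ≤ (1 - ε / 2) * Real.log 2 := by nlinarith [mul_pos hε hε]
  calc (1 - ε) * (Real.log M / ((b : ℝ) ^ k * Real.log b)) *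
        (Real.log (n / (C * Real.log M)) / Real.log 2) =
      ((1 - ε) / Real.log 2) * ((Real.log M / ((b : ℝ) ^ k * Real.log b)) *
        Real.log (n / (C * Real.log M))) := by ring
    _ ≤ ((1 - ε / 2) / Real.log (1 + (1 + η))) * ((Real.log M / ((b : ℝ) ^ k * Real.log b)) *
        Real.log (n / (C * Real.log M))) := mul_le_mul_of_nonneg_right h6 (by positivity)
    _ = _ := by ring

end Pool.Agent.Y950.NC
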