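import Mathlib
import Pool.Agent.Y949.LW.Far
import Pool.Agent.TH419.FS.Alg
import Pool.Agent.TH419.FS.Consts

/-!
Far cells for algebraic numbers: here the exponent may be arbitrarily small.
-/

set_option autoImplicit false

open Finset Filter Topology

namespace Pool.Agent.Y950.NC

open Pool.Agent.TH461.AL
open Pool.Agent.H706R2 (dZ round_run)

/-- the number `a = 1` only; `x` is not well approximable by `m / (N b ^ s q ^ n)` -/
lemma far_units {b q : ℕ} (hb : 2 ≤ b) (hq : 2 ≤ q) {r : ℝ}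
    (hrb : ((b : ℝ) + 1) * r ≤ 1) {x κ : ℝ} (hκ : 0 < κ)
    (hx : ∀ N : ℕ, 1 ≤ N → ∃ c0 : ℝ, 0 < c0 ∧ ∀ s n : ℕ, ∀ P : ℤ,
      c0 ≤ ((b : ℝ) ^ s * (q : ℝ) ^ n) ^ κ * |N * ((b : ℝ) ^ s * (q : ℝ) ^ n) * x - P|)
    (N : ℕ) (hN : 1 ≤ N) :
    ∃ K : ℝ, 0 ≤ K ∧ ∀ a ∈ ({1} : Set ℕ), 1 ≤ a → ∀ s n : ℕ, ∃ i : ℕ, s ≤ i ∧
      (i : ℝ) ≤ s + κ * (s + (Real.log a + n * Real.log q) / Real.log b) + K ∧
      Fa b q r (N * (a * x)) i n := by
  obtain ⟨c0, hc0, hx⟩ := hx N hN
  have hbR : (2 : ℝ) ≤ b := by exact_mod_cast hb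
  have hb0 : (0 : ℝ) < b := by positivity
  have hq0 : (0 : ℝ) < q := by positivity
  have hlb : 0 < Real.log b := Real.log_pos (by linarith)
  have hr1 : r < 1 := by nlinarith
  refine ⟨|Real.log c0| / Real.log b + 1, by positivity, fun a haA ha s n => ?_⟩
  have ha1 : a = 1 := haA
  subst ha1
  have hlq : 0 ≤ Real.log q := Real.log_natCast_nonneg q
  set X : ℝ := κ * (s + (n * Real.log q) / Real.log b) + |Real.log c0| / Real.log b with hX
  have hX0 : 0 ≤ X := by positivity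
  set A : ℕ := ⌈X⌉₊ with hA
  have hA1 : X ≤ A := Nat.le_ceil X
  have hA2 : (A : ℝ) < X + 1 := Nat.ceil_lt_add_one hX0
  by_contra hcon
  push Not at hcon
  set z : ℝ := (N : ℝ) * ((b : ℝ) ^ s * (q : ℝ) ^ n) * x with hz
  have hnear : ∀ k ≤ A, dZ ((b : ℝ) ^ k * z) < r := by
    intro k hk
    have hkR : (k : ℝ) ≤ A := by exact_mod_cast hk
    have h1 := hcon (s + k) (Nat.le_add_right _ _) (by
      push_cast
      rw [hX] at hA2
      rw [Real.log_one, zero_add]
      linarith)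
    unfold Fa at h1
    push Not at h1
    have e : (N : ℝ) * (((1 : ℕ) : ℝ) * x) * (b : ℝ) ^ (((s + k : ℕ)) : ℤ) *
        (q : ℝ) ^ ((n : ℕ) : ℤ) = (b : ℝ) ^ k * z := by
      rw [zpow_natCast, zpow_natCast, hz, pow_add]
      push_cast
      ring
    rw [e] at h1
    exact h1
  have h1 := round_run hrb A hnear
  have h2 := hnear A le_rfl
  have h3 : (b : ℝ) ^ A * dZ z < r := by
    unfold dZ at h2
    rw [h1] at h2
    push_cast at h2
    rw [← mul_sub, abs_mul, abs_of_pos (by positivity)] at h2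
    exact h2
  set U : ℝ := (b : ℝ) ^ s * (q : ℝ) ^ n with hU
  have hU0 : 0 < U := by positivity
  have h4 := hx s n (round z)
  have h5 : c0 ≤ U ^ κ * dZ z := h4
  -- the sizes
  have hlogU : Real.log U = s * Real.log b + n * Real.log q := by
    rw [hU, Real.log_mul (by positivity) (by positivity), Real.log_pow, Real.log_pow]
  have h6 : U ^ κ ≤ c0 * (b : ℝ) ^ A := by
    have h7 : Real.log (U ^ κ) ≤ Real.log (c0 * (b : ℝ) ^ A) := by
      rw [Real.log_rpow hU0, Real.log_mul hc0.ne' (by positivity), Real.log_pow, hlogU]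
      have h8 : X * Real.log b ≤ A * Real.log b := mul_le_mul_of_nonneg_right hA1 hlb.le
      have h9 : X * Real.log b = κ * (s * Real.log b + n * Real.log q) + |Real.log c0| := by
        rw [hX]
        field_simp
      have h10 : -|Real.log c0| ≤ Real.log c0 := neg_abs_le _
      rw [h9] at h8
      linarith
    exact (Real.log_le_log_iff (Real.rpow_pos_of_pos hU0 _) (by positivity)).1 h7
  have h7 : 0 ≤ dZ z := abs_nonneg _
  have h8 : c0 ≤ c0 * (b : ℝ) ^ A * dZ z := h5.trans (mul_le_mul_of_nonneg_right h6 h7)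
  have h9 : c0 * (b : ℝ) ^ A * dZ z = c0 * ((b : ℝ) ^ A * dZ z) := by ring
  rw [h9] at h8
  have h10 : c0 * ((b : ℝ) ^ A * dZ z) < c0 * 1 :=
    mul_lt_mul_of_pos_left (h3.trans hr1) hc0
  linarith

end Pool.Agent.Y950.NC
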