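import Mathlib
import Pool.Agent.Y949.LW.Words
import Pool.Agent.Y950.NC.Win

/-!
Words in all long windows of the expansions of the numbers `a q ^ n x`, for almost all `n`.
-/

set_option autoImplicit false

open Finset Filter Topology

namespace Pool.Agent.Y950.NC

open Pool.Agent.TH461.AL
open Pool.Agent.Y949.LW (Occ cells_le)
open Pool.Agent.TH461.AL.Nl (UW isOpen_UW nonempty_UW word_of_mem)

open Classical in
/-- **Words in all long windows.** -/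
theorem words {b q : ℕ} (hb : 2 ≤ b) (hq : 2 ≤ q) {r : ℝ}
    (hrb : ((b : ℝ) + 1) * r ≤ 1) {D k0 : ℕ} (hcore : CoreProp b q r D)
    (hdown : ∀ ϑ : ℝ, Down (Fa b q r ϑ) k0) {x κ : ℝ} (hκ : 0 < κ) {A : Set ℕ}
    (hfar : ∀ N : ℕ, 1 ≤ N → ∃ K : ℝ, 0 ≤ K ∧ ∀ a ∈ A, 1 ≤ a → ∀ s n : ℕ, ∃ i : ℕ, s ≤ i ∧
      (i : ℝ) ≤ s + κ * (s + (Real.log a + n * Real.log q) / Real.log b) + K ∧
      Fa b q r (N * (a * x)) i n)
    (k R : ℕ) {C ε δ : ℝ} (hC : κ < C) (hε : 0 < ε) (hδ : 0 < δ) :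
    ∃ M0 : ℕ, ∀ M J a : ℕ, M0 ≤ M → a ∈ A → 1 ≤ a →
      (((range M).filter (fun t : ℕ => ¬ ∀ u ≤ R * (J + M), ∀ W < b ^ k,
        (M : ℝ) ^ (1 - ε) ≤ ((Occ b k (a * (q : ℝ) ^ (J + t) * x) u
          (u + C * (u + (Real.log a + ((J + t : ℕ) : ℝ) * Real.log q) / Real.log b)) W).ncard :
            ℝ))).card : ℝ) ≤ δ * M := by
  have hbk : (0 : ℝ) < ((b ^ k : ℕ) : ℝ) + 1 := by positivity
  choose! M0 hM0 using fun W : ℕ => windows (U := UW b k W) hb hq hrb hcore hdown hκ hfar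
    (isOpen_UW b k W) (nonempty_UW hb k W) R (k + 2) hC hε (div_pos hδ hbk)
  refine ⟨∑ W ∈ range (b ^ k), M0 W, fun M J a hM haA ha => ?_⟩
  have hsub : (range M).filter (fun t : ℕ => ¬ ∀ u ≤ R * (J + M), ∀ W < b ^ k,
        (M : ℝ) ^ (1 - ε) ≤ ((Occ b k (a * (q : ℝ) ^ (J + t) * x) u
          (u + C * (u + (Real.log a + ((J + t : ℕ) : ℝ) * Real.log q) / Real.log b)) W).ncard :
            ℝ)) ⊆ (range (b ^ k)).biUnion (fun W => (range M).filter (fun t : ℕ => ∃ u : ℕ,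
        u ≤ R * (J + M) ∧ ∃ v : ℤ,
        (u : ℝ) + C * (u + (Real.log a + ((J + t : ℕ) : ℝ) * Real.log q) / Real.log b) -
          ((k + 2 : ℕ) : ℝ) ≤ v ∧
        (((Icc (u : ℤ) v).filter (fun i : ℤ =>
          ((a * x * (b : ℝ) ^ i * (q : ℝ) ^ ((J + t : ℕ) : ℤ) : ℝ) : UnitAddCircle) ∈
            UW b k W)).card : ℝ) < (M : ℝ) ^ (1 - ε))) := by
    intro t ht
    rw [Finset.mem_filter] at ht
    obtain ⟨htM, h⟩ := ht
    push Not at h
    obtain ⟨u, hu, W, hW, h⟩ := h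
    rw [Finset.mem_biUnion]
    refine ⟨W, Finset.mem_range.2 hW, Finset.mem_filter.2 ⟨htM, u, hu, _, ?_,
      lt_of_le_of_lt (Nat.cast_le.2 (cells_le (q := q) hb hW a x (J + t) u
        (u + C * (u + (Real.log a + ((J + t : ℕ) : ℝ) * Real.log q) / Real.log b)))) h⟩⟩
    push_cast
    linarith [Int.lt_floor_add_one ((u : ℝ) + C * (u + (Real.log a + ((J : ℝ) + t) * Real.log q) /
      Real.log b))]
  refine le_trans (Nat.cast_le.2 (Finset.card_le_card hsub)) ?_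
  refine le_trans (Nat.cast_le.2 Finset.card_biUnion_le) ?_
  rw [Nat.cast_sum]
  refine (Finset.sum_le_sum (g := fun _ => δ / (((b ^ k : ℕ) : ℝ) + 1) * (M : ℝ))
    fun W hW => ?_).trans ?_
  · exact hM0 W M J a (le_trans (Finset.single_le_sum (f := M0) (fun i _ => Nat.zero_le _) hW) hM)
      haA ha
  · rw [Finset.sum_const, Finset.card_range, nsmul_eq_mul]
    have h1 : ((b ^ k : ℕ) : ℝ) * (δ / (((b ^ k : ℕ) : ℝ) + 1) * M) =
        (((b ^ k : ℕ) : ℝ) / (((b ^ k : ℕ) : ℝ) + 1)) * (δ * M) := by ring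
    rw [h1]
    have h2 : ((b ^ k : ℕ) : ℝ) / (((b ^ k : ℕ) : ℝ) + 1) ≤ 1 := by
      rw [div_le_one hbk]
      linarith
    exact mul_le_of_le_one_left (by positivity) h2

end Pool.Agent.Y950.NC
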