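import Mathlib
import Pool.Agent.Y950.NC.Words
import Pool.Agent.Y950.NC.Far
import Pool.Agent.TH461.AL.Dec2
import Pool.Agent.TH461.AL.Fin
import Pool.Agent.W47.LC.Ln2
import Pool.Agent.Y950.NC.MeasE
import Pool.Agent.W472.AC.RothThm

/-!
Words in all long windows of the expansions of the numbers `a q ^ n x`, where `x` is `e`, `ln 2` or
an irrational algebraic number.
-/

set_option autoImplicit false

open Finset Filter Topology

namespace Pool.Agent.Y950.NC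

open Pool.Agent.TH461.AL

/-- the core statement and far cells below for the two kinds of pairs (copied from
`Pool.Agent.Y949.LW.exists_core`) -/
theorem exists_core {b q : ℕ} (hb : 2 ≤ b) (hq : 2 ≤ q)
    (h : Nat.Coprime b q ∨ ∃ v : ℕ, 2 ≤ v ∧ Nat.Coprime q v ∧ b = q * v) :
    ∃ (r : ℝ) (D k0 : ℕ), 0 < r ∧ ((b : ℝ) + 1) * r ≤ 1 ∧ CoreProp b q r D ∧
      ∀ ϑ : ℝ, Down (Fa b q r ϑ) k0 := by
  rcases h with h | ⟨v, hv, hco, rfl⟩
  · obtain ⟨r, D, hr, hrb, hrq, hD⟩ := Fin.exists_core hb hq h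
    exact ⟨r, D, q, hr, hrb, hD, fun ϑ => Gen.down_gen hb (by omega)
      (Nat.lt_pow_self (by omega : 1 < b)).le hrb ϑ⟩
  · obtain ⟨r, D, hr, hrb, hD⟩ := Dec.exists_core2 Ud.updown Diag.diag Lin2.line2 Lev2.level2 hq hv
      hco
    exact ⟨r, D, 1, hr, hrb, hD, fun ϑ => Dec.down2 hq hv hrb ϑ⟩

open Classical in
/-- the result for a set `A` of multipliers -/
theorem words_consts (b q : ℕ) (hb : 2 ≤ b) (hq : 2 ≤ q)
    (h : Nat.Coprime b q ∨ ∃ v : ℕ, 2 ≤ v ∧ Nat.Coprime q v ∧ b = q * v) (k R : ℕ) (x lam : ℝ)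
    (hx : (x = Real.exp 1 ∧ lam = 1) ∨ (x = Real.log 2 ∧ lam = 3.211) ∨
      (IsAlgebraic ℚ x ∧ Irrational x ∧ (lam = 0 ∨ lam = 1)))
    (C ε δ : ℝ) (hC : lam < C) (hε : 0 < ε) (hδ : 0 < δ) :
    ∃ M0 : ℕ, ∀ M J a : ℕ, M0 ≤ M → 1 ≤ a → (lam = 0 → a = 1) →
      (((range M).filter (fun t : ℕ => ¬ ∀ u ≤ R * (J + M), ∀ W < b ^ k,
        (M : ℝ) ^ (1 - ε) ≤ ((Pool.Agent.Y949.LW.Occ b k (a * (q : ℝ) ^ (J + t) * x) u
          (u + C * (u + (Real.log a + ((J + t : ℕ) : ℝ) * Real.log q) / Real.log b)) W).ncard :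
            ℝ))).card : ℝ) ≤ δ * M := by
  obtain ⟨r, D, k0, -, hrb, hD, hdn⟩ := exists_core hb hq h
  -- from an ordinary measure of irrationality
  have key : ∀ κ : ℝ, 0 < κ → κ < C → (∃ c0 : ℝ, 0 < c0 ∧ ∀ Q : ℕ, 1 ≤ Q → ∀ P : ℤ,
      c0 ≤ (Q : ℝ) ^ κ * |Q * x - P|) → ∃ M0 : ℕ, ∀ M J a : ℕ, M0 ≤ M → 1 ≤ a →
      (((range M).filter (fun t : ℕ => ¬ ∀ u ≤ R * (J + M), ∀ W < b ^ k,
        (M : ℝ) ^ (1 - ε) ≤ ((Pool.Agent.Y949.LW.Occ b k (a * (q : ℝ) ^ (J + t) * x) u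
          (u + C * (u + (Real.log a + ((J + t : ℕ) : ℝ) * Real.log q) / Real.log b)) W).ncard :
            ℝ))).card : ℝ) ≤ δ * M := by
    rintro κ hκ hκC ⟨c0, hc0, hm⟩
    exact Pool.Agent.Y949.LW.words hb hq hrb hD hdn hκ hc0 hm k R hκC hε hδ
  rcases hx with ⟨hx, rfl⟩ | ⟨hx, rfl⟩ | ⟨halg, hirr, rfl | rfl⟩
  · obtain ⟨M0, hM0⟩ := key (1 + (C - 1) / 2) (by linarith) (by linarith)
      (by rw [hx]; exact meas_exp (by linarith))
    exact ⟨M0, fun M J a hM ha _ => hM0 M J a hM ha⟩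
  · obtain ⟨M0, hM0⟩ := key 3.211 (by norm_num) hC (by rw [hx]; exact Pool.Agent.W47.LC.ln2)
    exact ⟨M0, fun M J a hM ha _ => hM0 M J a hM ha⟩
  · obtain ⟨κ, hκ, hm⟩ := Pool.Agent.TH419.FS.alg_units b q hb hq x halg hirr (C / 2) (by linarith)
    have hfar := far_units (x := x) (κ := C / 2) hb hq hrb (by linarith)
      (fun N hN => ⟨κ N, hκ N, fun s n P => hm N hN s n P⟩)
    obtain ⟨M0, hM0⟩ := words (A := {1}) hb hq hrb hD hdn (by linarith : (0 : ℝ) < C / 2) hfar k R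
      (by linarith : C / 2 < C) hε hδ
    exact ⟨M0, fun M J a hM ha h3 => hM0 M J a hM (by rw [h3 rfl]; exact Set.mem_singleton 1) ha⟩
  · obtain ⟨M0, hM0⟩ := key (1 + (C - 1) / 2) (by linarith) (by linarith)
      (Pool.Agent.W472.AC.roth x halg hirr _ (by linarith))
    exact ⟨M0, fun M J a hM ha _ => hM0 M J a hM ha⟩

end Pool.Agent.Y950.NC
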